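import Mathlib
import Pool.Agent.H.MP_d03a5a_nt.D

namespace Pool.Agent.Results.MP_d03a5a_nt.No

/-- Bogomolov property for the multiplicative group: nonzero elements of small absolute
logarithmic Weil height are roots of unity. -/
def Bogomolov (F : IntermediateField ℚ (AlgebraicClosure ℚ)) : Prop :=
  ∃ ε : ℝ, 0 < ε ∧ ∀ x ∈ F, x ≠ 0 → NumberField.absLogHeight₁ x < ε → IsOfFinOrder x

theorem result : ∃ (F₀ F : IntermediateField ℚ (AlgebraicClosure ℚ)) (h : F₀ ≤ F),
    Bogomolov F₀ ∧ FiniteDimensional F₀ (IntermediateField.extendScalars h) ∧ IsGalois ℚ F ∧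
    {x : AlgebraicClosure ℚ | x ∈ F ∧ IsOfFinOrder x}.Finite ∧ ¬ Bogomolov F := by
  have : IsAlgClosure ℚ (AlgebraicClosure ℚ) := by
    convert AlgebraicClosure.instIsAlgClosure ℚ
    all_goals rfl
  exact Pool.Agent.H.MP_d03a5a_nt.main

end Pool.Agent.Results.MP_d03a5a_nt.No
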